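import Mathlib
import Pool.Agent.P.MP_6f280c_lc.Defs
import Pool.Agent.P.MP_6f280c_lc.Main

set_option autoImplicit false

open Pool.Agent.P.MP_6f280c_lc

namespace Pool.Agent.Results.MP_6f280c_lc.FastMatching

/-- Deterministic maximal matching in `O(log N * (log Δ)^(3/2))` rounds of the LOCAL model.
Nodes are named by their identifiers in `Fin N`; the output of a node depends only on its
`T`-round view. -/
theorem result : ∃ C : ℝ, ∀ N Δ : ℕ, 2 ≤ N → 2 ≤ Δ →
    ∃ (T : ℕ) (A : SimpleGraph (Fin N) → Fin N → Option (Fin N)),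
      (T : ℝ) ≤ C * Real.log N * Real.log Δ ^ (3 / 2 : ℝ) ∧
      (∀ G G' : SimpleGraph (Fin N), (∀ v, (G.neighborSet v).ncard ≤ Δ) →
        (∀ v, (G'.neighborSet v).ncard ≤ Δ) → ∀ v, SameView T G G' v → A G v = A G' v) ∧
      ∀ G : SimpleGraph (Fin N), (∀ v, (G.neighborSet v).ncard ≤ Δ) →
        IsMaximalMatching G (A G) := main

end Pool.Agent.Results.MP_6f280c_lc.FastMatching
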